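import Pool.Agent.H402.HD.Defs
import Pool.Agent.H402.FR.Two

/-!
# Project HD (helper402): families of partitions with several disjoint maximal blocks
-/

set_option autoImplicit false

open Finset

namespace Pool.Agent.H402.HD

open Pool.Agent.H402.FR (RankLT parts_eq ne_compl split_prod)

variable {F : Type*} [Field F] {d m : ℕ} {Q : Fin d → Type*}

/-- the block of `j` -/
def blk (c : Fin d → Fin m) (j : Fin m) : Finset (Fin d) := univ.filter fun α => c α = j

theorem mem_blk {c : Fin d → Fin m} {j : Fin m} {α : Fin d} : α ∈ blk c j ↔ c α = j := by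
  simp [blk]

/-- glue `m` points along the blocks -/
def mixm (c : Fin d → Fin m) (x : Fin m → ∀ α, Q α) : ∀ α, Q α := fun α => x (c α) α

/-- `R` is a slice family for the blocks of `c`. -/
def SliceFam (R : Set (Finpartition (univ : Finset (Fin d)))) (c : Fin d → Fin m)
    (B : Fin m → Finpartition (univ : Finset (Fin d))) : Prop :=
  (∀ j, B j ∈ R ∧ blk c j ∈ (B j).parts ∧ (blk c j)ᶜ ∈ (B j).parts) ∧ ∀ P ∈ R, ∃ j, P ≤ B j

theorem SLd_of_rankLT {R : Set (Finpartition (univ : Finset (Fin d)))} {c : Fin d → Fin m}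
    {B : Fin m → Finpartition (univ : Finset (Fin d))} (hR : SliceFam R c B)
    {T : (∀ α, Q α) → F} {X : ∀ α, Finset (Q α)} {k : ℕ} (h : RankLT R T X k)
    {ι : Type*} (px : Fin m → ι → ∀ α, Q α) (hx : ∀ i α, px (c α) i α ∈ X α) :
    SLd (fun i : Fin m → ι => T (mixm c fun j => px j (i j))) k := by
  classical
  obtain ⟨r, hr, P, hP, f, hf, H⟩ := h
  choose α hα using fun i => hR.2 (P i) (hP i)
  have hsplit := fun i => split_prod (hR.1 (α i)).2.1 (hR.1 (α i)).2.2 (hα i) (f i) (hf i)
  choose a b ha hb hab using hsplit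
  refine ⟨r, hr, α, fun t i => a t (mixm c fun j => px j (i j)),
    fun t i => b t (mixm c fun j => px j (i j)), fun t x y hxy => ?_, fun t x y hxy => ?_,
    fun x => ?_⟩
  · refine ha t _ _ fun β hβ => ?_
    rw [mem_blk] at hβ
    simp only [mixm]
    rw [hβ, hxy]
  · refine hb t _ _ fun β hβ => ?_
    rw [mem_blk] at hβ
    simp only [mixm]
    rw [hxy _ hβ]
  · show T (mixm c fun j => px j (x j)) = _
    rw [H (mixm c fun j => px j (x j)) fun β => hx _ _]
    exact Finset.sum_congr rfl fun i _ => hab i _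

theorem rankLT_of_SLd {R : Set (Finpartition (univ : Finset (Fin d)))}
    {c : Fin d → Fin m} {B : Fin m → Finpartition (univ : Finset (Fin d))}
    (hR : SliceFam R c B) {T : (∀ α, Q α) → F} {k : ℕ} {X : ∀ α, Finset (Q α)}
    (h : SLd (fun x : Fin m → ∀ α, Q α => T (mixm c x)) k) : RankLT R T X k := by
  classical
  obtain ⟨r, hr, α, a, g, ha, hg, H⟩ := h
  by_cases hne : Nonempty (∀ α, Q α)
  swap
  · exact ⟨0, by omega, Fin.elim0, fun i => i.elim0, Fin.elim0, fun i => i.elim0,
      fun x _ => absurd ⟨x⟩ hne⟩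
  obtain ⟨w⟩ := hne
  -- the point with coordinates `x` in the block of `j` only
  let pt : (∀ α, Q α) → Fin m → ∀ α, Q α := fun x j β => if c β = j then x β else w β
  have hpt : ∀ x, mixm c (pt x) = x := by
    intro x
    funext β
    simp [mixm, pt]
  refine ⟨r, hr, fun i => B (α i), fun i => (hR.1 _).1,
    fun i S x => if S = blk c (α i) then a i (pt x) else if S = (blk c (α i))ᶜ then g i (pt x) else 0,
    fun i S x y hxy => ?_, fun x _ => ?_⟩
  · simp only
    split_ifs with h1 h2
    · refine ha i _ _ ?_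
      funext β
      simp only [pt]
      split_ifs with hβ
      · exact hxy β (by rw [h1]; exact mem_blk.2 hβ)
      · rfl
    · refine hg i _ _ fun j hj => ?_
      funext β
      simp only [pt]
      split_ifs with hβ
      · refine hxy β ?_
        rw [h2, Finset.mem_compl, mem_blk, hβ]
        exact hj
      · rfl
    · rfl
  · have e0 := H (pt x)
    simp only [hpt] at e0
    rw [e0]
    refine Finset.sum_congr rfl fun i _ => ?_
    rw [parts_eq (hR.1 (α i)).2.1 (hR.1 (α i)).2.2, Finset.prod_pair (ne_compl (hR.1 (α i)).2.1)]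
    dsimp only
    rw [if_pos rfl, if_neg (ne_compl (hR.1 (α i)).2.1).symm, if_pos rfl]

/-- Full minors of the tensor of the blocks give full minors of the tensor. -/
theorem minor_of {R : Set (Finpartition (univ : Finset (Fin d)))} {c : Fin d → Fin m}
    {B : Fin m → Finpartition (univ : Finset (Fin d))} (hR : SliceFam R c B)
    {T : (∀ α, Q α) → F} {l : ℕ} (b : Fin m → Fin l → ∀ α, Q α)
    (h : ¬ SLd (fun i : Fin m → Fin l => T (mixm c fun j => b j (i j))) l) :
    ∃ X : ∀ α, Finset (Q α), (∀ α, (X α).card ≤ l) ∧ ¬ RankLT R T X l := by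
  classical
  refine ⟨fun α => univ.image (fun i => b (c α) i α), fun α => ?_,
    fun h' => h (SLd_of_rankLT hR h' b fun i α => ?_)⟩
  · exact Finset.card_image_le.trans (by simp)
  · exact Finset.mem_image_of_mem (fun i => b (c α) i α) (Finset.mem_univ i)

end Pool.Agent.H402.HD
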