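import Pool.Agent.H402.HD.Defs

/-!
# Project HD (helper402): the statements

Every `S_X` is a closed proposition; each task is: prove `theorem holds : S_X` or
`theorem holds (h : S_Y) : S_X`.
-/

set_option autoImplicit false

open Finset

namespace Pool.Agent.H402.HD

universe u

/-- **H1.** If `d + 1` is even or the characteristic is two, the hyperdeterminant vanishes on tensors
of slice rank less than `k`.

Proof.  `M = ∑ t, S t`, `S t x = a t x * g t x`, `r < k` terms.  Expand
`∏ i, M (..) = ∑ τ : Fin k → Fin r, ∏ i, S (τ i) (..)` (`Finset.prod_univ_sum` or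
`Fintype.piFinset`); exchange the sums; fix `τ`; there are `i ≠ i'` with `τ i = τ i' =: t` (pigeonhole).
The sum over `σ` vanishes (`Finset.sum_involution`): if `α t = β.succ`, the involution replaces `σ β`
by `σ β * swap i i'` (the two factors `i, i'` exchange their coordinates in the direction
`β.succ`, which does not change the product of the two values of `S t`; the sign changes).  If `α t = 0`,
the involution replaces all `σ β` by `σ β * swap i i'` (fixed point free because `1 ≤ d`): the factors
`i, i'` exchange all coordinates but the one in direction `0`, again the product of the two values of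
`S t` does not change, and the sign is multiplied by `(-1) ^ d = -1`.  The other factors do not change. -/
def S_h1 : Prop := ∀ (F : Type u) [Field F] (d k : ℕ) (M : (Fin (d + 1) → Fin k) → F),
  1 ≤ d → (-1 : F) ^ (d + 1) = 1 → SLd M k → hdet M = 0

/-- **H2.** If some minor of size `k` has hyperdeterminant different from zero, but no minor of size
`k + 1`, then the partition rank is less than `(k + 1) ^ d`.

Proof.  Let `b α = Fin.cons (x α) (a α) : Fin (k + 1) → X α`.  In the expansion of
`hdet (fun i => T fun α => b α (i α)) = 0` group the terms by the function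
`p : Fin d → Fin (k + 1)`, `p β = σ β 0`.  The terms with `p = 0` (all `σ β` fix `0`; these correspond to
families of permutations of `Fin k`, `Equiv.Perm.decomposeFin`, the sign is the same) sum up to
`T x * hdet (fun i => T fun α => a α (i α))`.  For `p ≠ 0` the sum of the terms is `f p x * g p x` with
`f p x = T (the point with coordinates x 0 and b β.succ (p β))` (the factor `i = 0`; it depends on
the coordinates in `S p = {0} ∪ {β.succ | p β = 0}` only) and
`g p x = ∑ (σ with σ · 0 = p), sign * ∏ i ≠ 0, T (..)`; in a factor `i ≠ 0` the coordinate `x β.succ`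
appears only if `σ β i = 0`, so `p β = σ β 0 ≠ 0`, and `x 0` does not appear: `g p` depends only on the
coordinates not in `S p`.  There are `(k + 1) ^ d - 1` functions `p ≠ 0`, and `S p ≠ univ`. -/
def S_h2 : Prop := ∀ (F : Type u) [Field F] (d k : ℕ) (X : Fin (d + 1) → Type)
  (T : (∀ α, X α) → F) (a : ∀ α, Fin k → X α), hdet (fun i => T fun α => a α (i α)) ≠ 0 →
  (∀ b : ∀ α, Fin (k + 1) → X α, hdet (fun i => T fun α => b α (i α)) = 0) →
  PLd T ((k + 1) ^ d)

/-- **H3.** Linear combinations.

Proof.  Expand the product over `i` of the sums over `x` into a sum over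
`y : Fin k → ∀ α, X α` and re-index for fixed `σ`: `b 0 i = y i 0`, `b β.succ (σ β i) = y i β.succ`. -/
def S_h3 : Prop := ∀ (F : Type u) [Field F] (d k : ℕ) (X : Fin (d + 1) → Type)
  [∀ α, Fintype (X α)] (T : (∀ α, X α) → F) (u : ∀ α, Fin k → X α → F),
  hdet (fun i : Fin (d + 1) → Fin k => ∑ x : ∀ α, X α, (∏ α, u α (i α) (x α)) * T x) =
    ∑ b : ∀ α, Fin k → X α, (∏ α, ∏ j, u α j (b α j)) * hdet (fun i => T fun α => b α (i α))

/-- **VAL.** Three values of the hyperdeterminant of order four.

Proof.  The product over `i` is `1` if `σ 0 = 1` and `σ 1 = σ 2` and `0` otherwise (first case), etc. -/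
def S_val : Prop := ∀ (F : Type u) [Field F] (k : ℕ),
  hdet (fun i : Fin 4 → Fin k => if i 0 = i 1 ∧ i 2 = i 3 then (1 : F) else 0) = (k.factorial : F) ∧
  hdet (fun i : Fin 4 → Fin k => if i 0 = i 2 ∧ i 1 = i 3 then (1 : F) else 0) = (k.factorial : F) ∧
  hdet (fun i : Fin 4 → Fin k => if i 0 = i 3 ∧ i 1 = i 2 then (1 : F) else 0) = (k.factorial : F)

/-- **AV (avoidance).** If `φ 1 u, …, φ e u` are dependent modulo `Φ` for all `u` in an affine
subspace of codimension at most `m`, then a nontrivial combination of the `φ j` has small rank.

Proof.  `F` infinite: let `r < e` be the maximal dimension of the span of the `φ j u` modulo `Φ`, for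
`u` in the affine space `L`, attained at `u₁`.  After an invertible change of the family `φ` (with
constant coefficients) `φ 1 u₁, …, φ r u₁` are independent modulo `Φ` and `φ j u₁ ∈ Φ` for `j > r`.
Let `v` be in the direction `L₀` of `L` (`ψ i v = 0`), `j > r`.  For all `t : F` the `r + 1` vectors
`φ 1 (u₁ + t v), …, φ r (u₁ + t v), φ j (u₁ + t v)` are dependent modulo `Φ`; modulo `Φ` the last one is
`t φ j v`; so for all `t ≠ 0` the vectors `φ i u₁ + t φ i v` (`i ≤ r`), `φ j v` are dependent
modulo `Φ`.  The corresponding minors are polynomials in `t` which vanish for all `t ≠ 0`, so they vanish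
for `t = 0` (`F` is infinite): `φ j v` lies in `W' = Φ + span (φ i u₁, i ≤ r)`.  So `φ j` maps `L₀` into a
space of dimension at most `w + r`, and its rank is at most `w + r + m`.
`F` finite, with `q` elements: if all `∑ c j • φ j`, `c ≠ 0`, have rank more than `e + w + m`, then
`K c = {u | ∑ c j • φ j u ∈ Φ}` has at most `q ^ (n - (e + w + m) - 1 + w)` elements
(`n = card ι`), the union of the fewer than `q ^ e` sets `K c` has fewer than `q ^ (n - m)` elements,
but the affine space has at least `q ^ (n - m)` elements. -/
def S_av : Prop := ∀ (F : Type u) [Field F] (ι κ : Type) [Fintype ι] [Fintype κ] (e w m : ℕ)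
  (φ : Fin e → (ι → F) →ₗ[F] (κ → F)) (Φ : Submodule F (κ → F)) (ψ : Fin m → (ι → F) →ₗ[F] F)
  (c₀ : Fin m → F) (u₀ : ι → F), Module.finrank F Φ ≤ w → (∀ i, ψ i u₀ = c₀ i) →
  (∀ u, (∀ i, ψ i u = c₀ i) → ∃ c : Fin e → F, c ≠ 0 ∧ ∑ j, c j • φ j u ∈ Φ) →
  ∃ c : Fin e → F, c ≠ 0 ∧ Module.finrank F (LinearMap.range (∑ j, c j • φ j)) ≤ e + w + m

/-- **SEL (selection).** Families of bilinear forms of large rank (all nontrivial combinations of the
forms on the same pair of directions) take prescribed values at suitable vectors.

Proof (from `S_av`).  `N = t + D * (s + t * k) + (s + t * k)`.  Choose the vectors `u α a` one by one;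
let `C ⊆ Fin D × Fin k` be the set of the pairs already treated.  Invariant: the conditions hold for
the vectors already chosen, and for each direction `α` the functionals on `X → F` given by
`x ↦ ∑ y, β j x y * u (q j) b y` (`p j = α`, `(q j, b) ∈ C`) and `y ↦ ∑ x, β j x y * u (p j) b x`
(`q j = α`, `(p j, b) ∈ C`) are linearly independent modulo the span of the `lam α i`.  To choose
`u α a` for a new pair: the conditions `lam α i · u = 0` and the prescribed values of the functionals
just mentioned define an affine subspace `L` of codimension at most `s + t * k`, which is not empty by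
the invariant.  The invariant for the other directions `α'` will be true if the vectors
`φ j u` (for the `j` with `p j = α` or `q j = α`; `φ j u ∈ (Fin D × X → F)` is the function
`(q j, y) ↦ ∑ x, β j x y * u x`, zero at the other directions, if `p j = α`, and
`(p j, x) ↦ ∑ y, β j x y * u y` if `q j = α`) are linearly independent modulo `Φ` = the direct sum over
`α'` of the spans of the `lam α' i` and of the functionals of the invariant.  If this fails for all
`u ∈ L`, `S_av` gives a nontrivial combination of the `φ j` with rank at most `N`; its component at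
some direction `α'` is nontrivial and has rank at most `N`, it is (up to transposition) a nontrivial
combination of the `β j` with `{p j, q j} = {α, α'}`: contradiction. -/
def S_sel : Prop := ∀ D t s k : ℕ, ∃ N : ℕ, ∀ (F : Type u) [Field F] (X : Type) [Fintype X]
  (p q : Fin t → Fin D) (β : Fin t → X → X → F) (lam : Fin D → Fin s → X → F)
  (tg : Fin t → Fin k → Fin k → F), (∀ j, p j < q j) →
  (∀ (α α' : Fin D) (c : Fin t → F), c ≠ 0 → (∀ j, c j ≠ 0 → p j = α ∧ q j = α') →
    ¬ Rk (fun x y => ∑ j, c j * β j x y) N) →
  ∃ u : Fin D → Fin k → X → F,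
    (∀ j a b, ∑ x, ∑ y, u (p j) a x * u (q j) b y * β j x y = tg j a b) ∧
    ∀ α i a, ∑ x, lam α i x * u α a x = 0

end Pool.Agent.H402.HD
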