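import Pool.Agent.H402.HD.Four
import Pool.Agent.H402.HD.Tr2
import Pool.Agent.H154.HD_H1
import Pool.Agent.H658.HD_H2
import Pool.Agent.H196.HD_H3
import Pool.Agent.H94.HD_VAL
import Pool.Agent.H872.HD_AV
import Pool.Agent.H415.HD_SEL

/-!
# Project HD (helper402): the theorems
-/

set_option autoImplicit false

open Finset

namespace Pool.Agent.H402.HD

universe u

/-- **Even order, or characteristic two**: large partition rank gives minors of full slice rank. -/
theorem even_or_two {F : Type u} [Field F] {d : ℕ}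
    (hd : 1 ≤ d) (hs : (-1 : F) ^ (d + 1) = 1) {X : Fin (d + 1) → Type}
    (T : (∀ α, X α) → F) (l : ℕ) (hT : ¬ PLd T (l ^ d)) :
    ∃ b : ∀ α, Fin l → X α, ¬ SLd (fun i : Fin (d + 1) → Fin l => T fun α => b α (i α)) l :=
  full_of_partition Pool.Agent.H154.HD_H1.holds Pool.Agent.H658.HD_H2.holds hd hs T l hT

/-- **Order four.** -/
theorem order_four (l : ℕ) : ∃ G : ℕ, ∀ (F : Type u) [Field F], (l.factorial : F) ≠ 0 →
    ∀ (X : Type) [Fintype X] (T : (Fin 4 → X) → F), ¬ SLd T G →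
    ∃ b : Fin 4 → Fin l → X, ¬ SLd (fun i : Fin 4 → Fin l => T fun α => b α (i α)) l :=
  four Pool.Agent.H154.HD_H1.holds Pool.Agent.H658.HD_H2.holds Pool.Agent.H196.HD_H3.holds
    Pool.Agent.H94.HD_VAL.holds (Pool.Agent.H415.HD_SEL.holds Pool.Agent.H872.HD_AV.holds) l

end Pool.Agent.H402.HD
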