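import Mathlib

/-!
# Project HD (helper402, MP_b48e27_co): definitions

Full minors by the hyperdeterminant of Cayley.
-/

set_option autoImplicit false

open Finset

namespace Pool.Agent.H402.HD

/-- `SLd T k`: the slice rank of `T` is less than `k` (a sum of fewer than `k` products of a function
of one coordinate and a function of the other coordinates). -/
def SLd {F : Type*} [Field F] {d : ℕ} {X : Fin d → Type*} (T : (∀ α, X α) → F) (k : ℕ) : Prop :=
  ∃ r < k, ∃ (α : Fin r → Fin d) (a g : Fin r → (∀ α, X α) → F),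
    (∀ t x y, x (α t) = y (α t) → a t x = a t y) ∧
    (∀ t x y, (∀ β, β ≠ α t → x β = y β) → g t x = g t y) ∧
    ∀ x, T x = ∑ t, a t x * g t x

/-- `PLd T k`: the partition rank of `T` is less than `k`. -/
def PLd {F : Type*} [Field F] {d : ℕ} {X : Fin d → Type*} (T : (∀ α, X α) → F) (k : ℕ) : Prop :=
  ∃ r < k, ∃ (S : Fin r → Finset (Fin d)) (f g : Fin r → (∀ α, X α) → F),
    (∀ t, (S t).Nonempty ∧ S t ≠ univ) ∧
    (∀ t x y, (∀ β ∈ S t, x β = y β) → f t x = f t y) ∧
    (∀ t x y, (∀ β, β ∉ S t → x β = y β) → g t x = g t y) ∧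
    ∀ x, T x = ∑ t, f t x * g t x

/-- The hyperdeterminant of Cayley of a tensor with `d + 1` directions of size `k`. -/
def hdet {F : Type*} [Field F] {d k : ℕ} (M : (Fin (d + 1) → Fin k) → F) : F :=
  ∑ σ : Fin d → Equiv.Perm (Fin k), (∏ α, ((Equiv.Perm.sign (σ α) : ℤ) : F)) *
    ∏ i : Fin k, M (Fin.cons i fun α => σ α i)

/-- The rank of the matrix `A` is at most `N`. -/
def Rk {F X : Type*} [Field F] (A : X → X → F) (N : ℕ) : Prop :=
  ∃ f g : Fin N → X → F, ∀ x y, A x y = ∑ i, f i x * g i y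

end Pool.Agent.H402.HD
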