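import Pool.Agent.H402.HD.Red

/-!
# Project HD (helper402): order four
-/

set_option autoImplicit false

open Finset

namespace Pool.Agent.H402.HD

universe u

set_option maxRecDepth 4000 in
theorem card_two : ∀ S : Finset (Fin 4), S.card = 2 → ∃ a b c d : Fin 4, a < b ∧ c < d ∧ a ≠ c ∧
    a ≠ d ∧ b ≠ c ∧ b ≠ d ∧ S = {a, b} := by
  decide

set_option maxRecDepth 4000 in
theorem card_ne_two : ∀ S : Finset (Fin 4), S.Nonempty → S ≠ univ → S.card ≠ 2 →
    ∃ α : Fin 4, S = {α} ∨ Sᶜ = {α} := by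
  decide

/-- the permutation with given values -/
theorem exists_perm (a b c d : Fin 4) (h1 : a < b) (h2 : c < d) (h3 : a ≠ c) (h4 : a ≠ d)
    (h5 : b ≠ c) (h6 : b ≠ d) : ∃ e : Equiv.Perm (Fin 4), e 0 = a ∧ e 1 = b ∧ e 2 = c ∧ e 3 = d := by
  have hinj : Function.Injective (![a, b, c, d] : Fin 4 → Fin 4) := by
    intro i j hij
    fin_cases i <;> fin_cases j <;> simp at hij ⊢ <;> first
      | (exact absurd hij h1.ne) | (exact absurd hij h1.ne') | (exact absurd hij h2.ne)
      | (exact absurd hij h2.ne') | (exact absurd hij h3) | (exact absurd hij.symm h3)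
      | (exact absurd hij h4) | (exact absurd hij.symm h4) | (exact absurd hij h5)
      | (exact absurd hij.symm h5) | (exact absurd hij h6) | (exact absurd hij.symm h6)
  exact ⟨Equiv.ofBijective _ (Finite.injective_iff_bijective.1 hinj), rfl, rfl, rfl, rfl⟩

theorem PF_of_PLd {F : Type u} [Field F] {X : Type} {T : (Fin 4 → X) → F} {k : ℕ}
    (h : PLd T k) (hne : Nonempty X) : ∃ s t, s < k ∧ t < k ∧ PF T s t := by
  classical
  obtain ⟨w⟩ := hne
  obtain ⟨r, hr, S, f, g, hS, hf, hg, hT⟩ := h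
  -- slices
  have hsl : ∀ i : {i // (S i).card ≠ 2}, ∃ (α : Fin 4) (l : X → F) (g' : (Fin 4 → X) → F),
      (∀ x y, (∀ β, β ≠ α → x β = y β) → g' x = g' y) ∧ ∀ x, f i x * g i x = l (x α) * g' x := by
    intro i
    obtain ⟨α, hα | hα⟩ := card_ne_two (S i) (hS i).1 (hS i).2 i.2
    · refine ⟨α, fun u => f i (fun _ => u), g i, fun x y hxy => hg i x y fun β hβ => ?_,
        fun x => ?_⟩
      · apply hxy
        rintro rfl
        exact hβ (by rw [hα]; exact Finset.mem_singleton_self _)
      · congr 1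
        refine hf i _ _ fun β hβ => ?_
        rw [hα, Finset.mem_singleton] at hβ
        rw [hβ]
    · refine ⟨α, fun u => g i (fun _ => u), f i, fun x y hxy => hf i x y fun β hβ => ?_,
        fun x => ?_⟩
      · apply hxy
        rintro rfl
        have : β ∈ (S i)ᶜ := by rw [hα]; exact Finset.mem_singleton_self _
        exact (Finset.mem_compl.1 this) hβ
      · rw [mul_comm]
        congr 1
        refine hg i _ _ fun β hβ => ?_
        have : β ∈ (S i)ᶜ := Finset.mem_compl.2 hβ
        rw [hα, Finset.mem_singleton] at this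
        rw [this]
  choose α l g' hg' hfg' using hsl
  -- products
  have hpr : ∀ i : {i // ¬ (S i).card ≠ 2}, ∃ (e : Equiv.Perm (Fin 4)) (A B : X → X → F),
      (e 0 < e 1 ∧ e 2 < e 3) ∧
      ∀ x, f i x * g i x = A (x (e 0)) (x (e 1)) * B (x (e 2)) (x (e 3)) := by
    intro i
    obtain ⟨a, b, c, d, h1, h2, h3, h4, h5, h6, hSi⟩ := card_two (S i) (not_not.1 i.2)
    obtain ⟨e, he0, he1, he2, he3⟩ := exists_perm a b c d h1 h2 h3 h4 h5 h6
    refine ⟨e, fun u v => f i (fun β => if β = a then u else v),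
      fun u v => g i (fun β => if β = c then u else v), ⟨by rw [he0, he1]; exact h1,
      by rw [he2, he3]; exact h2⟩, fun x => ?_⟩
    congr 1
    · refine hf i _ _ fun β hβ => ?_
      rw [hSi, Finset.mem_insert, Finset.mem_singleton] at hβ
      rcases hβ with rfl | rfl
      · rw [if_pos rfl, he0]
      · rw [if_neg h1.ne', he1]
    · refine hg i _ _ fun β hβ => ?_
      rw [hSi, Finset.mem_insert, Finset.mem_singleton] at hβ
      push Not at hβ
      by_cases hc : β = c
      · rw [if_pos hc, he2, hc]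
      · rw [if_neg hc, he3]
        have : β = d := by
          have := e.surjective β
          obtain ⟨i, rfl⟩ := this
          fin_cases i
          · exact absurd he0 hβ.1
          · exact absurd he1 hβ.2
          · exact absurd he2 hc
          · exact he3
        rw [this]
  choose e A B he hAB using hpr
  have hcard : Fintype.card {i // (S i).card ≠ 2} + Fintype.card {i // ¬ (S i).card ≠ 2} = r := by
    have h1 := Fintype.card_subtype_compl (fun i : Fin r => (S i).card ≠ 2)
    have h2 := Fintype.card_subtype_le (fun i : Fin r => (S i).card ≠ 2)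
    rw [Fintype.card_fin] at h1 h2
    omega
  let E1 := (Fintype.equivFin {i // (S i).card ≠ 2}).symm
  let E2 := (Fintype.equivFin {i // ¬ (S i).card ≠ 2}).symm
  refine ⟨Fintype.card {i // (S i).card ≠ 2}, Fintype.card {i // ¬ (S i).card ≠ 2},
    by omega, by omega, fun i => α (E1 i), fun i => l (E1 i), fun i => g' (E1 i),
    fun j => e (E2 j), fun j => A (E2 j), fun j => B (E2 j), fun i => hg' _, fun j => he _,
    fun x => ?_⟩
  rw [hT, ← Fintype.sum_subtype_add_sum_subtype (fun i => (S i).card ≠ 2)]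
  congr 1
  · rw [← E1.sum_comp]
    exact Finset.sum_congr rfl fun i _ => hfg' _ _
  · rw [← E2.sum_comp]
    exact Finset.sum_congr rfl fun i _ => hAB _ _

/-- **Order four.** -/
theorem four (h1 : S_h1.{u}) (h2 : S_h2.{u}) (h3 : S_h3.{u}) (hv : S_val.{u}) (hs : S_sel.{u})
    (l : ℕ) : ∃ G : ℕ, ∀ (F : Type u) [Field F], (l.factorial : F) ≠ 0 →
    ∀ (X : Type) [Fintype X] (T : (Fin 4 → X) → F), ¬ SLd T G →
    ∃ b : Fin 4 → Fin l → X, ¬ SLd (fun i : Fin 4 → Fin l => T fun α => b α (i α)) l := by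
  classical
  choose G hG using red hs h3 hv l
  refine ⟨(Finset.range (l ^ 3) ×ˢ Finset.range (l ^ 3)).sup (fun st => G st.2 st.1) + 1,
    fun F _ hl X _ T hT => ?_⟩
  by_contra hcon
  push Not at hcon
  have hb : ∀ b : Fin 4 → Fin l → X, hdet (fun i : Fin 4 → Fin l => T fun α => b α (i α)) = 0 :=
    fun b => h1 F 3 l _ (by norm_num) (by norm_num) (hcon b)
  by_cases hne : Nonempty X
  swap
  · refine hT ⟨0, by omega, Fin.elim0, Fin.elim0, Fin.elim0, fun t => t.elim0, fun t => t.elim0,
      fun x => absurd ⟨x 0⟩ hne⟩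
  have hP : PLd T (l ^ 3) := by
    by_contra hP
    obtain ⟨b, hb'⟩ := exists_hdet h2 T l hP
    exact hb' (hb b)
  obtain ⟨s, t, hs', ht', hPF⟩ := PF_of_PLd hP hne
  refine hT ((hG t s F hl X T hPF hb).mono ?_)
  have hm : ((s, t) : ℕ × ℕ) ∈ Finset.range (l ^ 3) ×ˢ Finset.range (l ^ 3) :=
    Finset.mem_product.2 ⟨Finset.mem_range.2 hs', Finset.mem_range.2 ht'⟩
  have : G t s ≤ (Finset.range (l ^ 3) ×ˢ Finset.range (l ^ 3)).sup (fun st => G st.2 st.1) :=
    Finset.le_sup (f := fun st : ℕ × ℕ => G st.2 st.1) hm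
  omega

end Pool.Agent.H402.HD
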