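import Pool.Agent.H402.HD.Stm

/-!
# Project HD (helper402): assembly
-/

set_option autoImplicit false

open Finset

namespace Pool.Agent.H402.HD

universe u

theorem PLd.mono {F : Type*} [Field F] {d : ℕ} {X : Fin d → Type*} {T : (∀ α, X α) → F} {k l : ℕ}
    (h : PLd T k) (hkl : k ≤ l) : PLd T l := by
  obtain ⟨r, hr, H⟩ := h
  exact ⟨r, by omega, H⟩

theorem SLd.mono {F : Type*} [Field F] {d : ℕ} {X : Fin d → Type*} {T : (∀ α, X α) → F} {k l : ℕ}
    (h : SLd T k) (hkl : k ≤ l) : SLd T l := by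
  obtain ⟨r, hr, H⟩ := h
  exact ⟨r, by omega, H⟩

theorem hdet_zero {F : Type*} [Field F] {d : ℕ} (M : (Fin (d + 1) → Fin 0) → F) : hdet M = 1 := by
  simp [hdet]

/-- Tensors of large partition rank have minors with non-zero hyperdeterminant. -/
theorem exists_hdet (h2 : S_h2.{u}) {F : Type u} [Field F] {d : ℕ} {X : Fin (d + 1) → Type}
    (T : (∀ α, X α) → F) (l : ℕ) (hT : ¬ PLd T (l ^ d)) :
    ∃ b : ∀ α, Fin l → X α, hdet (fun i => T fun α => b α (i α)) ≠ 0 := by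
  induction l with
  | zero =>
    refine ⟨fun α i => i.elim0, ?_⟩
    rw [hdet_zero]
    exact one_ne_zero
  | succ k ih =>
    by_contra hcon
    push Not at hcon
    obtain ⟨a, ha⟩ := ih (fun h => hT (h.mono (Nat.pow_le_pow_left (Nat.le_succ k) d)))
    exact hT (h2 F d k X T a ha hcon)

/-- **Even order, or characteristic two.** -/
theorem full_of_partition (h1 : S_h1.{u}) (h2 : S_h2.{u}) {F : Type u} [Field F] {d : ℕ}
    (hd : 1 ≤ d) (hs : (-1 : F) ^ (d + 1) = 1) {X : Fin (d + 1) → Type}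
    (T : (∀ α, X α) → F) (l : ℕ) (hT : ¬ PLd T (l ^ d)) :
    ∃ b : ∀ α, Fin l → X α, ¬ SLd (fun i : Fin (d + 1) → Fin l => T fun α => b α (i α)) l := by
  obtain ⟨b, hb⟩ := exists_hdet h2 T l hT
  exact ⟨b, fun h => hb (h1 F d l _ hd hs h)⟩

end Pool.Agent.H402.HD
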