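import Pool.Agent.H402.HD.Spl

/-!
# Project HD (helper402): order four, reduction of the number of products
-/

set_option autoImplicit false

open Finset

namespace Pool.Agent.H402.HD

universe u

/-- A sum of `s` slices and `t` products of two functions of two coordinates. -/
def PF {F : Type u} [Field F] {X : Type} (T : (Fin 4 → X) → F) (s t : ℕ) : Prop :=
  ∃ (αs : Fin s → Fin 4) (l : Fin s → X → F) (g : Fin s → (Fin 4 → X) → F)
    (e : Fin t → Equiv.Perm (Fin 4)) (A B : Fin t → X → X → F),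
    (∀ i x y, (∀ β, β ≠ αs i → x β = y β) → g i x = g i y) ∧
    (∀ j, e j 0 < e j 1 ∧ e j 2 < e j 3) ∧
    ∀ x, T x = ∑ i, l i (x (αs i)) * g i x +
      ∑ j, A j (x (e j 0)) (x (e j 1)) * B j (x (e j 2)) (x (e j 3))

theorem perm_ext {e e' : Equiv.Perm (Fin 4)} (h0 : e 0 = e' 0) (h1 : e 1 = e' 1)
    (h : e 2 < e 3) (h' : e' 2 < e' 3) : e = e' := by
  have i01 : e 0 ≠ e 1 := fun hh => by simpa using e.injective hh
  have i02 : e 0 ≠ e 2 := fun hh => by simpa using e.injective hh
  have i03 : e 0 ≠ e 3 := fun hh => by simpa using e.injective hh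
  have i12 : e 1 ≠ e 2 := fun hh => by simpa using e.injective hh
  have i13 : e 1 ≠ e 3 := fun hh => by simpa using e.injective hh
  have j01 : e' 0 ≠ e' 1 := fun hh => by simpa using e'.injective hh
  have j02 : e' 0 ≠ e' 2 := fun hh => by simpa using e'.injective hh
  have j03 : e' 0 ≠ e' 3 := fun hh => by simpa using e'.injective hh
  have j12 : e' 1 ≠ e' 2 := fun hh => by simpa using e'.injective hh
  have j13 : e' 1 ≠ e' 3 := fun hh => by simpa using e'.injective hh
  have h2 : e 2 = e' 2 := by omega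
  have h3 : e 3 = e' 3 := by omega
  ext i
  fin_cases i
  · exact congrArg _ h0
  · exact congrArg _ h1
  · exact congrArg _ h2
  · exact congrArg _ h3

/-- exchange of the two pairs -/
def sw : Equiv.Perm (Fin 4) := Equiv.swap 0 2 * Equiv.swap 1 3

theorem sw0 : sw 0 = 2 := by decide
theorem sw1 : sw 1 = 3 := by decide
theorem sw2 : sw 2 = 0 := by decide
theorem sw3 : sw 3 = 1 := by decide

/-- One reduction step. -/
theorem reduce {F : Type u} [Field F] {X : Type} {T : (Fin 4 → X) → F} {s t N : ℕ}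
    (αs : Fin s → Fin 4) (l : Fin s → X → F) (g : Fin s → (Fin 4 → X) → F)
    (e : Fin (t + 1) → Equiv.Perm (Fin 4)) (A B : Fin (t + 1) → X → X → F)
    (hg : ∀ i x y, (∀ β, β ≠ αs i → x β = y β) → g i x = g i y)
    (he : ∀ j, e j 0 < e j 1 ∧ e j 2 < e j 3)
    (hT : ∀ x, T x = ∑ i, l i (x (αs i)) * g i x +
      ∑ j, A j (x (e j 0)) (x (e j 1)) * B j (x (e j 2)) (x (e j 3)))
    (c : Fin (t + 1) → F) (j₀ : Fin (t + 1)) (hj₀ : c j₀ ≠ 0)
    (hc : ∀ j, c j ≠ 0 → e j 0 = e j₀ 0 ∧ e j 1 = e j₀ 1)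
    (hR : Rk (fun x y => ∑ j, c j * A j x y) N) : PF T (s + N) t := by
  classical
  obtain ⟨f, f', hf⟩ := hR
  have hee : ∀ j, c j ≠ 0 → e j = e j₀ := fun j hj =>
    perm_ext (hc j hj).1 (hc j hj).2 (he j).2 (he j₀).2
  have n1 : e j₀ 1 ≠ e j₀ 0 := fun h => by simpa using (e j₀).injective h
  have n2 : e j₀ 2 ≠ e j₀ 0 := fun h => by simpa using (e j₀).injective h
  have n3 : e j₀ 3 ≠ e j₀ 0 := fun h => by simpa using (e j₀).injective h
  refine ⟨Fin.addCases αs (fun _ => e j₀ 0), Fin.addCases l f,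
    Fin.addCases g (fun i x => f' i (x (e j₀ 1)) * ((c j₀)⁻¹ * B j₀ (x (e j₀ 2)) (x (e j₀ 3)))),
    fun j => e (j₀.succAbove j), fun j => A (j₀.succAbove j),
    fun j x y => B (j₀.succAbove j) x y - (c j₀)⁻¹ * c (j₀.succAbove j) * B j₀ x y,
    fun i x y => ?_, fun j => he _, fun x => ?_⟩
  · refine Fin.addCases (fun i => ?_) (fun i => ?_) i
    · simp only [Fin.addCases_left]
      exact hg i x y
    · simp only [Fin.addCases_right]
      intro hxy
      rw [hxy _ n1, hxy _ n2, hxy _ n3]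
  · rw [hT]
    conv_rhs => rw [Fin.sum_univ_add]
    simp only [Fin.addCases_left, Fin.addCases_right]
    rw [add_assoc]
    congr 1
    rw [Fin.sum_univ_succAbove _ j₀]
    have hL := hf (x (e j₀ 0)) (x (e j₀ 1))
    simp only at hL
    rw [Fin.sum_univ_succAbove _ j₀] at hL
    have hterm : ∀ j : Fin t, A (j₀.succAbove j) (x (e (j₀.succAbove j) 0))
        (x (e (j₀.succAbove j) 1)) * (B (j₀.succAbove j) (x (e (j₀.succAbove j) 2))
        (x (e (j₀.succAbove j) 3)) - (c j₀)⁻¹ * c (j₀.succAbove j) *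
        B j₀ (x (e (j₀.succAbove j) 2)) (x (e (j₀.succAbove j) 3))) =
        A (j₀.succAbove j) (x (e (j₀.succAbove j) 0)) (x (e (j₀.succAbove j) 1)) *
        B (j₀.succAbove j) (x (e (j₀.succAbove j) 2)) (x (e (j₀.succAbove j) 3)) -
        (c (j₀.succAbove j) * A (j₀.succAbove j) (x (e j₀ 0)) (x (e j₀ 1))) *
          ((c j₀)⁻¹ * B j₀ (x (e j₀ 2)) (x (e j₀ 3))) := by
      intro j
      by_cases h : c (j₀.succAbove j) = 0
      · rw [h]
        ring
      · rw [hee _ h]
        ring
    simp only [hterm]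
    rw [Finset.sum_sub_distrib, ← Finset.sum_mul]
    have h2 : ∑ i, f i (x (e j₀ 0)) * (f' i (x (e j₀ 1)) *
        ((c j₀)⁻¹ * B j₀ (x (e j₀ 2)) (x (e j₀ 3)))) =
        (∑ i, f i (x (e j₀ 0)) * f' i (x (e j₀ 1))) *
          ((c j₀)⁻¹ * B j₀ (x (e j₀ 2)) (x (e j₀ 3))) := by
      rw [Finset.sum_mul]
      exact Finset.sum_congr rfl fun i _ => by ring
    rw [h2, ← hL]
    field_simp
    ring

/-- exchange the two pairs in some of the products -/
theorem flip {F : Type u} [Field F] {X : Type} {T : (Fin 4 → X) → F} {s t : ℕ}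
    (αs : Fin s → Fin 4) (l : Fin s → X → F) (g : Fin s → (Fin 4 → X) → F)
    (e : Fin t → Equiv.Perm (Fin 4)) (A B : Fin t → X → X → F)
    (hT : ∀ x, T x = ∑ i, l i (x (αs i)) * g i x +
      ∑ j, A j (x (e j 0)) (x (e j 1)) * B j (x (e j 2)) (x (e j 3)))
    (P : Fin t → Prop) [DecidablePred P] (x : Fin 4 → X) :
    T x = ∑ i, l i (x (αs i)) * g i x +
      ∑ j, (if P j then B j else A j) (x ((if P j then e j * sw else e j) 0))
          (x ((if P j then e j * sw else e j) 1)) *
        (if P j then A j else B j) (x ((if P j then e j * sw else e j) 2))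
          (x ((if P j then e j * sw else e j) 3)) := by
  rw [hT]
  congr 1
  refine Finset.sum_congr rfl fun j _ => ?_
  by_cases h : P j
  · simp only [h, if_true, Equiv.Perm.mul_apply, sw0, sw1, sw2, sw3]
    ring
  · simp only [h, if_false]

/-- selection for an arbitrary index type -/
theorem sel' (hs : S_sel.{u}) (D s k : ℕ) (ι : Type) [Fintype ι] : ∃ N : ℕ,
    ∀ (F : Type u) [Field F] (X : Type) [Fintype X]
    (p q : ι → Fin D) (β : ι → X → X → F) (lam : Fin D → Fin s → X → F)
    (tg : ι → Fin k → Fin k → F), (∀ j, p j < q j) →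
    (∀ (α α' : Fin D) (c : ι → F), c ≠ 0 → (∀ j, c j ≠ 0 → p j = α ∧ q j = α') →
      ¬ Rk (fun x y => ∑ j, c j * β j x y) N) →
    ∃ u : Fin D → Fin k → X → F,
      (∀ j a b, ∑ x, ∑ y, u (p j) a x * u (q j) b y * β j x y = tg j a b) ∧
      ∀ α i a, ∑ x, lam α i x * u α a x = 0 := by
  classical
  obtain ⟨N, hN⟩ := hs D (Fintype.card ι) s k
  refine ⟨N, fun F _ X _ p q β lam tg hpq h => ?_⟩
  let E := (Fintype.equivFin ι).symm
  obtain ⟨u, hu1, hu2⟩ := hN F X (fun j => p (E j)) (fun j => q (E j)) (fun j => β (E j)) lam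
    (fun j => tg (E j)) (fun j => hpq _) (by
      intro α α' c hc hsupp hR
      refine h α α' (fun j => c (E.symm j)) ?_ ?_ ?_
      · intro h0
        apply hc
        funext j
        have := congrFun h0 (E j)
        simpa using this
      · intro j hj
        have := hsupp _ hj
        simpa using this
      · obtain ⟨f, g, hfg⟩ := hR
        refine ⟨f, g, fun x y => ?_⟩
        have hfg' := hfg x y
        simp only at hfg'
        show ∑ j, c (E.symm j) * β j x y = _
        rw [← hfg', ← E.sum_comp]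
        simp)
  refine ⟨u, fun j a b => ?_, hu2⟩
  have := hu1 (E.symm j) a b
  simpa using this

set_option synthInstance.maxSize 2000 in
theorem cases4 : ∀ a b c d : Fin 4, (a < b ∧ c < d ∧ a ≠ c ∧ a ≠ d ∧ b ≠ c ∧ b ≠ d) →
    ((a = 0 ∧ b = 1 ∧ c = 2 ∧ d = 3) ∨ (a = 0 ∧ b = 2 ∧ c = 1 ∧ d = 3) ∨
      (a = 0 ∧ b = 3 ∧ c = 1 ∧ d = 2) ∨ (a = 2 ∧ b = 3 ∧ c = 0 ∧ d = 1) ∨
      (a = 1 ∧ b = 3 ∧ c = 0 ∧ d = 2) ∨ (a = 1 ∧ b = 2 ∧ c = 0 ∧ d = 3)) := by
  decide

theorem val_perm (hv : S_val.{u}) {F : Type u} [Field F] (k : ℕ) (e : Equiv.Perm (Fin 4))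
    (h01 : e 0 < e 1) (h23 : e 2 < e 3) :
    hdet (fun i : Fin 4 → Fin k => if i (e 0) = i (e 1) ∧ i (e 2) = i (e 3) then (1 : F) else 0) =
      (k.factorial : F) := by
  obtain ⟨v1, v2, v3⟩ := hv F k
  have i01 : e 0 ≠ e 1 := fun hh => by simpa using e.injective hh
  have i02 : e 0 ≠ e 2 := fun hh => by simpa using e.injective hh
  have i03 : e 0 ≠ e 3 := fun hh => by simpa using e.injective hh
  have i12 : e 1 ≠ e 2 := fun hh => by simpa using e.injective hh
  have i13 : e 1 ≠ e 3 := fun hh => by simpa using e.injective hh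
  generalize e 0 = a at *
  generalize e 1 = b at *
  generalize e 2 = c at *
  generalize e 3 = d at *
  have hcases : (a = 0 ∧ b = 1 ∧ c = 2 ∧ d = 3) ∨ (a = 0 ∧ b = 2 ∧ c = 1 ∧ d = 3) ∨
      (a = 0 ∧ b = 3 ∧ c = 1 ∧ d = 2) ∨ (a = 2 ∧ b = 3 ∧ c = 0 ∧ d = 1) ∨
      (a = 1 ∧ b = 3 ∧ c = 0 ∧ d = 2) ∨ (a = 1 ∧ b = 2 ∧ c = 0 ∧ d = 3) := by
    exact cases4 a b c d ⟨h01, h23, i02, i03, i12, i13⟩
  rcases hcases with ⟨rfl, rfl, rfl, rfl⟩ | ⟨rfl, rfl, rfl, rfl⟩ | ⟨rfl, rfl, rfl, rfl⟩ |
    ⟨rfl, rfl, rfl, rfl⟩ | ⟨rfl, rfl, rfl, rfl⟩ | ⟨rfl, rfl, rfl, rfl⟩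
  · exact v1
  · exact v2
  · exact v3
  · rw [← v1]
    simp only [and_comm]
  · rw [← v2]
    simp only [and_comm]
  · rw [← v3]
    simp only [and_comm]

/-- **Reduction.** -/
theorem red (hs : S_sel.{u}) (h3 : S_h3.{u}) (hv : S_val.{u}) (k : ℕ) : ∀ t s : ℕ, ∃ G : ℕ,
    ∀ (F : Type u) [Field F], (k.factorial : F) ≠ 0 → ∀ (X : Type) [Fintype X]
    (T : (Fin 4 → X) → F), PF T s t →
    (∀ b : Fin 4 → Fin k → X, hdet (fun i : Fin 4 → Fin k => T fun α => b α (i α)) = 0) →
    SLd T G := by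
  classical
  intro t
  induction t with
  | zero =>
    intro s
    refine ⟨s + 1, fun F _ _ X _ T hT _ => ?_⟩
    obtain ⟨αs, l, g, e, A, B, hg, he, hT⟩ := hT
    refine ⟨s, by omega, αs, fun i x => l i (x (αs i)), g, fun i x y h => by simp only [h], hg,
      fun x => ?_⟩
    rw [hT]
    simp
  | succ t ih =>
    intro s
    obtain ⟨N, hN⟩ := sel' hs 4 s k (Fin (t + 1) ⊕ Fin (t + 1))
    obtain ⟨G, hG⟩ := ih (s + N)
    refine ⟨G, fun F _ hk X _ T hT hb => ?_⟩
    obtain ⟨αs, l, g, e, A, B, hg, he, hT⟩ := hT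
    let p : Fin (t + 1) ⊕ Fin (t + 1) → Fin 4 := Sum.elim (fun j => e j 0) (fun j => e j 2)
    let q : Fin (t + 1) ⊕ Fin (t + 1) → Fin 4 := Sum.elim (fun j => e j 1) (fun j => e j 3)
    let β : Fin (t + 1) ⊕ Fin (t + 1) → X → X → F := Sum.elim A B
    let lam : Fin 4 → Fin s → X → F := fun α i => if αs i = α then l i else 0
    let tg : Fin (t + 1) ⊕ Fin (t + 1) → Fin k → Fin k → F :=
      Sum.elim (fun j a b => if j = 0 ∧ a = b then 1 else 0)
        (fun j a b => if j = 0 ∧ a = b then 1 else 0)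
    by_cases hsel : ∀ (α α' : Fin 4) (c : Fin (t + 1) ⊕ Fin (t + 1) → F), c ≠ 0 →
        (∀ j, c j ≠ 0 → p j = α ∧ q j = α') → ¬ Rk (fun x y => ∑ j, c j * β j x y) N
    · exfalso
      obtain ⟨u, hu1, hu2⟩ := hN F X p q β lam tg
        (by rintro (j | j); exacts [(he j).1, (he j).2]) hsel
      have hM : (fun i : Fin 4 → Fin k => ∑ x : Fin 4 → X, (∏ α, u α (i α) (x α)) * T x) =
          fun i => if i (e 0 0) = i (e 0 1) ∧ i (e 0 2) = i (e 0 3) then (1 : F) else 0 := by
        funext i
        have e1 : ∑ x : Fin 4 → X, (∏ α, u α (i α) (x α)) * T x =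
            ∑ i', ∑ x : Fin 4 → X, (∏ α, u α (i α) (x α)) * (l i' (x (αs i')) * g i' x) +
            ∑ j, ∑ x : Fin 4 → X, (∏ α, u α (i α) (x α)) *
              (A j (x (e j 0)) (x (e j 1)) * B j (x (e j 2)) (x (e j 3))) := by
          rw [Finset.sum_comm, Finset.sum_comm (f := fun j (x : Fin 4 → X) =>
            (∏ α, u α (i α) (x α)) *
              (A j (x (e j 0)) (x (e j 1)) * B j (x (e j 2)) (x (e j 3)))),
            ← Finset.sum_add_distrib]
          refine Finset.sum_congr rfl fun x _ => ?_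
          rw [hT, mul_add, Finset.mul_sum, Finset.mul_sum]
        rw [e1]
        have e2 : ∀ i', ∑ x : Fin 4 → X, (∏ α, u α (i α) (x α)) *
            (l i' (x (αs i')) * g i' x) = 0 := by
          intro i'
          refine spl2 (fun α => u α (i α)) (αs i') (fun x => l i' (x (αs i'))) (g i') (l i')
            (fun _ => rfl) (hg i') ?_
          have := hu2 (αs i') i' (i (αs i'))
          simpa [lam] using this
        have e3 : ∀ j, ∑ x : Fin 4 → X, (∏ α, u α (i α) (x α)) *
            (A j (x (e j 0)) (x (e j 1)) * B j (x (e j 2)) (x (e j 3))) =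
            (if j = 0 ∧ i (e j 0) = i (e j 1) then 1 else 0) *
            (if j = 0 ∧ i (e j 2) = i (e j 3) then 1 else 0) := by
          intro j
          rw [spl1 (fun α => u α (i α)) (A j) (B j) (e j)]
          have h1 := hu1 (Sum.inl j) (i (e j 0)) (i (e j 1))
          have h2 := hu1 (Sum.inr j) (i (e j 2)) (i (e j 3))
          simp only [p, q, β, tg, Sum.elim_inl, Sum.elim_inr] at h1 h2
          rw [h1, h2]
        simp only [e2, e3, Finset.sum_const_zero, zero_add]
        rw [Finset.sum_eq_single (0 : Fin (t + 1))]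
        · by_cases a1 : i (e 0 0) = i (e 0 1) <;> by_cases a2 : i (e 0 2) = i (e 0 3) <;>
            simp [a1, a2]
        · intro j _ hj
          simp [hj]
        · intro h
          exact absurd (Finset.mem_univ _) h
      have h4 := h3 F 3 k (fun _ => X) T u
      rw [hM] at h4
      rw [val_perm hv k (e 0) (he 0).1 (he 0).2] at h4
      apply hk
      rw [h4]
      refine Finset.sum_eq_zero fun b _ => ?_
      rw [hb b, mul_zero]
    · push Not at hsel
      obtain ⟨α, α', c, hc, hsupp, hR⟩ := hsel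
      let P : Fin (t + 1) → Prop := fun j => e j 2 = α ∧ e j 3 = α'
      let c' : Fin (t + 1) → F := fun j => if P j then c (Sum.inr j) else c (Sum.inl j)
      have hzl : ∀ j, P j → c (Sum.inl j) = 0 := by
        intro j hj
        by_contra h
        have h1 := (hsupp _ h).1
        simp only [p, Sum.elim_inl] at h1
        have : e j 0 = e j 2 := h1.trans hj.1.symm
        simpa using (e j).injective this
      have hzr : ∀ j, ¬ P j → c (Sum.inr j) = 0 := by
        intro j hj
        by_contra h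
        exact hj (hsupp _ h)
      have hex : ∃ j₀, c' j₀ ≠ 0 := by
        by_contra hno
        push Not at hno
        apply hc
        funext j
        rcases j with j | j
        · by_cases hP : P j
          · exact hzl j hP
          · have := hno j
            simp only [c', hP, if_false] at this
            exact this
        · by_cases hP : P j
          · have := hno j
            simp only [c', hP, if_true] at this
            exact this
          · exact hzr j hP
      obtain ⟨j₀, hj₀⟩ := hex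
      have hpos : ∀ j, c' j ≠ 0 → (if P j then e j * sw else e j) 0 = α ∧
          (if P j then e j * sw else e j) 1 = α' := by
        intro j hj
        by_cases hP : P j
        · simp only [hP, if_true, Equiv.Perm.mul_apply, sw0, sw1]
          exact hP
        · simp only [c', hP, if_false] at hj
          simp only [hP, if_false]
          exact hsupp _ hj
      refine hG F hk X T (reduce αs l g (fun j => if P j then e j * sw else e j)
        (fun j => if P j then B j else A j) (fun j => if P j then A j else B j) hg (fun j => ?_)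
        (flip αs l g e A B hT P) c' j₀ hj₀ (fun j hj => ?_) ?_) hb
      · by_cases hP : P j
        · simp only [hP, if_true, Equiv.Perm.mul_apply, sw0, sw1, sw2, sw3]
          exact ⟨(he j).2, (he j).1⟩
        · simp only [hP, if_false]
          exact he j
      · exact ⟨(hpos j hj).1.trans (hpos j₀ hj₀).1.symm, (hpos j hj).2.trans (hpos j₀ hj₀).2.symm⟩
      · obtain ⟨f, f', hf⟩ := hR
        refine ⟨f, f', fun x y => ?_⟩
        have hf' := hf x y
        simp only [Fintype.sum_sum_type, β, Sum.elim_inl, Sum.elim_inr] at hf'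
        show ∑ j, c' j * (if P j then B j else A j) x y = _
        rw [← hf', ← Finset.sum_add_distrib]
        refine Finset.sum_congr rfl fun j _ => ?_
        by_cases hP : P j
        · simp only [c', hP, if_true, hzl j hP, zero_mul, zero_add]
        · simp only [c', hP, if_false, hzr j hP, zero_mul, add_zero]

end Pool.Agent.H402.HD
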