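import Pool.Agent.H402.HD.Main

/-!
# Project HD (helper402): splitting of sums over four coordinates
-/

set_option autoImplicit false

open Finset

namespace Pool.Agent.H402.HD

variable {F : Type*} [Field F] {X : Type} [Fintype X]

theorem sum4 (f : (Fin 4 → X) → F) :
    ∑ x : Fin 4 → X, f x = ∑ a, ∑ b, ∑ c, ∑ d, f ![a, b, c, d] := by
  classical
  rw [← (Fin.consEquiv (fun _ : Fin 4 => X)).sum_comp, Fintype.sum_prod_type]
  refine Finset.sum_congr rfl fun a _ => ?_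
  rw [← (Fin.consEquiv (fun _ : Fin 3 => X)).sum_comp, Fintype.sum_prod_type]
  refine Finset.sum_congr rfl fun b _ => ?_
  rw [← (Fin.consEquiv (fun _ : Fin 2 => X)).sum_comp, Fintype.sum_prod_type]
  refine Finset.sum_congr rfl fun c _ => ?_
  rw [← (Fin.consEquiv (fun _ : Fin 1 => X)).sum_comp, Fintype.sum_prod_type]
  refine Finset.sum_congr rfl fun d _ => ?_
  simp only [Fin.consEquiv, Finset.univ_unique, Finset.sum_singleton, Equiv.coe_fn_mk]
  refine congrArg f ?_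
  funext i
  fin_cases i <;> rfl

theorem spl1 (u : Fin 4 → X → F) (A B : X → X → F) (e : Equiv.Perm (Fin 4)) :
    ∑ x : Fin 4 → X, (∏ α, u α (x α)) * (A (x (e 0)) (x (e 1)) * B (x (e 2)) (x (e 3))) =
      (∑ x, ∑ y, u (e 0) x * u (e 1) y * A x y) * ∑ x, ∑ y, u (e 2) x * u (e 3) y * B x y := by
  classical
  have h1 : ∑ x : Fin 4 → X, (∏ α, u α (x α)) * (A (x (e 0)) (x (e 1)) * B (x (e 2)) (x (e 3))) =
      ∑ x : Fin 4 → X, (∏ α, u (e α) (x α)) * (A (x 0) (x 1) * B (x 2) (x 3)) := by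
    rw [← (Equiv.arrowCongr e (Equiv.refl X)).sum_comp]
    refine Finset.sum_congr rfl fun x _ => ?_
    rw [← Equiv.prod_comp e (fun α => u α ((Equiv.arrowCongr e (Equiv.refl X)) x α))]
    simp [Equiv.arrowCongr]
  rw [h1, sum4]
  simp only [Fin.prod_univ_four, Matrix.cons_val_zero, Matrix.cons_val_one, Matrix.cons_val]
  rw [Finset.sum_mul]
  refine Finset.sum_congr rfl fun a _ => ?_
  rw [Finset.sum_mul]
  refine Finset.sum_congr rfl fun b _ => ?_
  rw [Finset.mul_sum]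
  refine Finset.sum_congr rfl fun c _ => ?_
  rw [Finset.mul_sum]
  refine Finset.sum_congr rfl fun d _ => ?_
  ring

theorem spl2 {D : ℕ} (u : Fin D → X → F) (α₀ : Fin D) (a g : (Fin D → X) → F) (l : X → F)
    (ha : ∀ x, a x = l (x α₀))
    (hg : ∀ x y : Fin D → X, (∀ β, β ≠ α₀ → x β = y β) → g x = g y)
    (hl : ∑ x, l x * u α₀ x = 0) :
    ∑ x : Fin D → X, (∏ α, u α (x α)) * (a x * g x) = 0 := by
  classical
  obtain ⟨D, rfl⟩ : ∃ D', D = D' + 1 := ⟨D - 1, by have := α₀.2; omega⟩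
  rw [← (Fin.insertNthEquiv (fun _ => X) α₀).sum_comp, Fintype.sum_prod_type]
  rw [Finset.sum_comm]
  refine Finset.sum_eq_zero fun y _ => ?_
  by_cases hX : Nonempty X
  swap
  · exact Finset.sum_eq_zero fun x _ => absurd ⟨x⟩ hX
  obtain ⟨x₀⟩ := hX
  have h1 : ∀ x : X, (∏ α, u α (Fin.insertNthEquiv (fun _ => X) α₀ (x, y) α)) *
      (a (Fin.insertNthEquiv (fun _ => X) α₀ (x, y)) *
        g (Fin.insertNthEquiv (fun _ => X) α₀ (x, y))) =
      (l x * u α₀ x) * ((∏ i, u (α₀.succAbove i) (y i)) *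
        g (Fin.insertNthEquiv (fun _ => X) α₀ (x₀, y))) := by
    intro x
    rw [Fin.prod_univ_succAbove _ α₀, ha]
    have e1 : (Fin.insertNthEquiv (fun _ => X) α₀ (x, y)) α₀ = x := by
      simp [Fin.insertNthEquiv]
    have e2 : ∀ i, (Fin.insertNthEquiv (fun _ => X) α₀ (x, y)) (α₀.succAbove i) = y i := by
      intro i
      simp [Fin.insertNthEquiv]
    have e3 : g (Fin.insertNthEquiv (fun _ => X) α₀ (x, y)) =
        g (Fin.insertNthEquiv (fun _ => X) α₀ (x₀, y)) := by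
      refine hg _ _ fun β hβ => ?_
      obtain ⟨i, rfl⟩ := Fin.exists_succAbove_eq hβ
      simp [Fin.insertNthEquiv]
    rw [e1, e3]
    simp only [e2]
    ring
  simp only [h1]
  rw [← Finset.sum_mul, hl, zero_mul]

end Pool.Agent.H402.HD
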